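import Mathlib
import Pool.Agent.Lib.lead.Best5

set_option autoImplicit false

namespace Pool.Agent.Results.MP_b6c00a_lc.Decidable
open LeadBest

/-- Validity in the modal logic of best action over finite game trees is decidable (even primitive
recursive); in particular the valid formulas are recursively enumerable.
The definitions are in `Pool/Agent/Lib/lead/Best.lean`. -/
theorem result (m : ℕ) (hm : 0 < m) : Function.Injective (Fm.code : Fm m → ℕ) ∧
    ∃ f : ℕ → Bool, Primrec f ∧ ∀ φ : Fm m, f φ.code = true ↔ Valid φ :=
  ⟨code_inj, chk m, prim_chk m, chk_valid hm⟩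

end Pool.Agent.Results.MP_b6c00a_lc.Decidable
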